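import Pool.Agent.Y262.EX.Stm

/-!
Project EX (helper262), job EXT: uniform time implies completeness (`StExt`).

No uniqueness is used: the curves of the points `p, β_p (ε/2), …` are put together, and the left and
the right derivatives are compared at the times `k ε / 2`.
-/

set_option autoImplicit false

open Set Filter Topology MeasureTheory
open scoped ContDiff ComplexConjugate Real

noncomputable section

namespace Pool.Agent.Y498.EX

open Pool.Agent.Y262.EG Pool.Agent.Y262.EX

/-- forward extension of integral curves -/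
theorem fwd {O : Set Y} {X : Y → Y} {ε : ℝ} (hε : 0 < ε) (h : ∀ p ∈ O, ∃ β, Crv O X ε p β) (p : Y)
    (hp : p ∈ O) : ∃ γ : ℝ → Y, γ 0 = p ∧ ∀ t, 0 ≤ t → γ t ∈ O ∧
      HasDerivWithinAt γ (X (γ t)) (Ici t) t ∧
      (0 < t → HasDerivWithinAt γ (X (γ t)) (Iic t) t) := by
  classical
  choose! β hβ using h
  set η : ℝ := ε / 2 with hη
  have hη0 : 0 < η := by positivity
  have hηε : η < ε := by rw [hη]; linarith
  let s : ℕ → Y := fun k => Nat.rec p (fun _ q => β q η) k
  have s0 : s 0 = p := rfl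
  have ss : ∀ k, s (k + 1) = β (s k) η := fun k => rfl
  have sO : ∀ k, s k ∈ O := by
    intro k
    induction k with
    | zero => exact hp
    | succ k ih =>
      rw [ss]
      exact ((hβ _ ih).2 η ⟨by linarith, hηε⟩).1
  have hd : ∀ (k : ℕ) (t : ℝ), -ε < t - k * η → t - k * η < ε →
      β (s k) (t - k * η) ∈ O ∧
        HasDerivAt (fun τ : ℝ => β (s k) (τ - k * η)) (X (β (s k) (t - k * η))) t := by
    intro k t h1 h2
    have h3 := (hβ _ (sO k)).2 (t - k * η) ⟨h1, h2⟩
    refine ⟨h3.1, ?_⟩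
    have h4 : HasDerivAt (fun τ : ℝ => τ - k * η) 1 t := (hasDerivAt_id t).sub_const _
    have h5 := HasDerivAt.scomp t h3.2 h4
    rw [one_smul] at h5
    exact h5
  let γ : ℝ → Y := fun t => β (s ⌊t / η⌋₊) (t - ⌊t / η⌋₊ * η)
  have hγ : ∀ (k : ℕ) (t : ℝ), k * η ≤ t → t < (k + 1) * η → γ t = β (s k) (t - k * η) := by
    intro k t h1 h2
    have h3 : ⌊t / η⌋₊ = k := by
      rw [Nat.floor_eq_iff (by
        have : 0 ≤ (k : ℝ) * η := by positivity
        exact div_nonneg (this.trans h1) hη0.le)]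
      constructor
      · rw [le_div_iff₀ hη0]; exact h1
      · rw [div_lt_iff₀ hη0]; exact h2
    show β (s ⌊t / η⌋₊) (t - ⌊t / η⌋₊ * η) = _
    rw [h3]
  have hγ' : ∀ (k : ℕ) (t : ℝ), k * η ≤ t → t ≤ (k + 1) * η → γ t = β (s k) (t - k * η) := by
    intro k t h1 h2
    rcases lt_or_eq_of_le h2 with h3 | h3
    · exact hγ k t h1 h3
    · rw [hγ (k + 1) t (by push_cast; linarith) (by push_cast; linarith)]
      have e1 : t - ((k + 1 : ℕ) : ℝ) * η = 0 := by push_cast; linarith
      have e2 : t - (k : ℝ) * η = η := by linarith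
      rw [e1, e2, (hβ _ (sO (k + 1))).1, ss]
  refine ⟨γ, ?_, ?_⟩
  · rw [hγ 0 0 (by simp) (by simpa using hη0)]
    simp only [Nat.cast_zero, zero_mul, sub_zero]
    exact (hβ _ hp).1
  · intro t ht
    obtain ⟨k, hk1, hk2⟩ : ∃ k : ℕ, k * η ≤ t ∧ t < (k + 1) * η := by
      refine ⟨⌊t / η⌋₊, ?_, ?_⟩
      · rw [← le_div_iff₀ hη0]; exact Nat.floor_le (div_nonneg ht hη0.le)
      · rw [← div_lt_iff₀ hη0]; exact Nat.lt_floor_add_one _
    have e := hγ k t hk1 hk2
    have h3 := hd k t (by linarith) (by nlinarith)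
    refine ⟨by rw [e]; exact h3.1, ?_, ?_⟩
    · rw [e]
      refine (h3.2.hasDerivWithinAt (s := Ici t)).congr_of_eventuallyEq ?_ e
      have h4 : Ico t ((k + 1) * η) ∈ 𝓝[≥] t := Ico_mem_nhdsGE hk2
      filter_upwards [h4] with τ hτ
      exact hγ k τ (hk1.trans hτ.1) hτ.2
    · intro ht0
      rcases lt_or_eq_of_le hk1 with h5 | h5
      · rw [e]
        refine (h3.2.hasDerivWithinAt (s := Iic t)).congr_of_eventuallyEq ?_ e
        have h4 : Ioc (k * η) t ∈ 𝓝[≤] t := Ioc_mem_nhdsLE h5
        filter_upwards [h4] with τ hτ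
        exact hγ k τ hτ.1.le (lt_of_le_of_lt hτ.2 hk2)
      · obtain ⟨j, rfl⟩ : ∃ j, k = j + 1 := by
          rcases k with _ | j
          · simp at h5
            linarith
          · exact ⟨j, rfl⟩
        have h6 : t = ((j : ℝ) + 1) * η := by rw [← h5]; push_cast; ring
        have e' : γ t = β (s j) (t - j * η) := hγ' j t (by rw [h6]; nlinarith) h6.le
        have h7 := hd j t (by rw [h6]; ring_nf; linarith) (by rw [h6]; ring_nf; linarith)
        rw [e']
        refine (h7.2.hasDerivWithinAt (s := Iic t)).congr_of_eventuallyEq ?_ e'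
        have h4 : Ioc (j * η) t ∈ 𝓝[≤] t := Ioc_mem_nhdsLE (by rw [h6]; nlinarith)
        filter_upwards [h4] with τ hτ
        exact hγ' j τ hτ.1.le (hτ.2.trans h6.le)

theorem ext : StExt := by
  classical
  intro O X _ _ ε hε h
  have h' : ∀ p ∈ O, ∃ β, Crv O (fun y => -X y) ε p β := by
    intro p hp
    obtain ⟨β, hβ0, hβ⟩ := h p hp
    refine ⟨fun t => β (-t), by simpa using hβ0, fun t ht => ?_⟩
    have h1 := hβ (-t) ⟨by linarith [ht.2], by linarith [ht.1]⟩
    refine ⟨h1.1, ?_⟩
    have h2 := HasDerivAt.scomp t h1.2 (hasDerivAt_neg t)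
    rw [neg_smul, one_smul] at h2
    exact h2
  have hF := fun p hp => fwd hε h p hp
  have hB := fun p hp => fwd hε h' p hp
  choose! F F0 hF using hF
  choose! B B0 hB using hB
  refine ⟨fun t p => if 0 ≤ t then F p t else B p (-t), ?_, ?_⟩
  · intro p hp
    simp [F0 p hp]
  · intro p hp t
    have hneg : ∀ τ : ℝ, τ ≤ 0 → (if 0 ≤ τ then F p τ else B p (-τ)) = B p (-τ) := by
      intro τ hτ
      rcases lt_or_eq_of_le hτ with h1 | h1
      · rw [if_neg (not_le.2 h1)]
      · subst h1
        simp [F0 p hp, B0 p hp]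
    have hbw : ∀ τ : ℝ, τ ≤ 0 → HasDerivWithinAt (fun σ : ℝ => B p (-σ)) (X (B p (-τ))) (Iic τ) τ := by
      intro τ hτ
      have h1 := (hB p hp (-τ) (by linarith)).2.1
      have h2 : HasDerivWithinAt (fun σ : ℝ => -σ) (-1) (Iic τ) τ := (hasDerivAt_neg τ).hasDerivWithinAt
      have h3 := HasDerivWithinAt.scomp τ h1 h2 (fun σ hσ => by
        simp only [mem_Iic, mem_Ici] at hσ ⊢
        linarith)
      simpa [Function.comp_def] using h3
    rcases lt_trichotomy t 0 with ht | ht | ht
    · -- negative times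
      have e : (if 0 ≤ t then F p t else B p (-t)) = B p (-t) := hneg t ht.le
      have h1 := hB p hp (-t) (by linarith)
      simp only [e]
      refine ⟨h1.1, ?_⟩
      have h2 : HasDerivAt (B p) (-X (B p (-t))) (-t) := by
        have := h1.2.1.union (h1.2.2 (by linarith))
        rw [Ici_union_Iic, hasDerivWithinAt_univ] at this
        exact this
      have h3 := HasDerivAt.scomp t h2 (hasDerivAt_neg t)
      have h4 : HasDerivAt (fun σ : ℝ => B p (-σ)) (X (B p (-t))) t := by
        simpa [Function.comp_def] using h3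
      refine h4.congr_of_eventuallyEq ?_
      filter_upwards [Iio_mem_nhds ht] with τ hτ
      exact hneg τ (le_of_lt hτ)
    · subst ht
      have e : (if (0 : ℝ) ≤ 0 then F p 0 else B p (-0)) = p := by simp [F0 p hp]
      simp only [e]
      refine ⟨hp, ?_⟩
      have h1 := (hF p hp 0 le_rfl).2.1
      rw [F0 p hp] at h1
      have h2 := hbw 0 le_rfl
      rw [neg_zero, B0 p hp] at h2
      have h3 : HasDerivWithinAt (fun τ => if 0 ≤ τ then F p τ else B p (-τ)) (X p) (Ici 0) 0 := by
        refine h1.congr (fun τ hτ => ?_) (by simp)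
        simp only [mem_Ici] at hτ
        simp [hτ]
      have h4 : HasDerivWithinAt (fun τ => if 0 ≤ τ then F p τ else B p (-τ)) (X p) (Iic 0) 0 := by
        refine h2.congr (fun τ hτ => ?_) (by simp [F0 p hp, B0 p hp])
        exact hneg τ hτ
      have h5 := h3.union h4
      rw [Ici_union_Iic, hasDerivWithinAt_univ] at h5
      exact h5
    · have e : (if 0 ≤ t then F p t else B p (-t)) = F p t := if_pos ht.le
      have h1 := hF p hp t ht.le
      simp only [e]
      refine ⟨h1.1, ?_⟩
      have h2 : HasDerivAt (F p) (X (F p t)) t := by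
        have := h1.2.1.union (h1.2.2 ht)
        rw [Ici_union_Iic, hasDerivWithinAt_univ] at this
        exact this
      refine h2.congr_of_eventuallyEq ?_
      filter_upwards [Ioi_mem_nhds ht] with τ hτ
      exact if_pos (le_of_lt hτ)

end Pool.Agent.Y498.EX
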